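import Pool.Agent.Y387.Frame.Weights

/-!
# Weighted tight frames for convex bodies

We maximise a weighted product of absolute values of determinants of `n`-tuples of distinct
members of a family of `N` vectors of a compact convex set.
-/

set_option autoImplicit false

namespace Pool.Agent.Y387.Frame

open Module Filter Topology

universe u v

variable {𝕜 : Type u} [RCLike 𝕜] {X : Type v} [NormedAddCommGroup X] [NormedSpace 𝕜 X]

/-- first order condition for a weighted product of affine factors -/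
lemma sum_nonpos_of_rpow {ι : Type*} (s : Finset ι) (r w : ι → ℝ) (hw : ∀ e ∈ s, 0 ≤ w e)
    (h : ∀ t : ℝ, 0 < t → t ≤ 1 → (∀ e ∈ s, 0 < 1 + t * r e) →
      ∏ e ∈ s, (1 + t * r e) ^ (w e) ≤ 1) :
    ∑ e ∈ s, w e * r e ≤ 0 := by
  have hpos : ∀ᶠ t : ℝ in 𝓝[>] 0, ∀ e ∈ s, 0 < 1 + t * r e := by
    rw [Finset.eventually_all]
    intro e _
    have hc : ContinuousAt (fun t : ℝ => 1 + t * r e) 0 := by fun_prop
    have h0 : (0 : ℝ) < 1 + 0 * r e := by norm_num
    exact (hc.eventually (lt_mem_nhds h0)).filter_mono nhdsWithin_le_nhds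
  have hle1 : ∀ᶠ t : ℝ in 𝓝[>] 0, t ≤ 1 :=
    (eventually_le_nhds (zero_lt_one (α := ℝ))).filter_mono nhdsWithin_le_nhds
  have hgt : ∀ᶠ t : ℝ in 𝓝[>] (0 : ℝ), 0 < t := eventually_mem_nhdsWithin
  have key : ∀ᶠ t : ℝ in 𝓝[>] 0, ∑ e ∈ s, w e * (r e / (1 + t * r e)) ≤ 0 := by
    filter_upwards [hpos, hle1, hgt] with t h1 h2 h3
    have hp := h t h3 h2 h1
    have hlog : ∑ e ∈ s, w e * Real.log (1 + t * r e) ≤ 0 := by
      have h4 : ∀ e ∈ s, w e * Real.log (1 + t * r e) = Real.log ((1 + t * r e) ^ (w e)) :=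
        fun e he => (Real.log_rpow (h1 e he) _).symm
      rw [Finset.sum_congr rfl h4, ← Real.log_prod (fun e he => (Real.rpow_pos_of_pos (h1 e he) _).ne')]
      exact Real.log_nonpos (Finset.prod_nonneg (fun e he => (Real.rpow_pos_of_pos (h1 e he) _).le)) hp
    have hb : ∑ e ∈ s, t * (w e * (r e / (1 + t * r e))) ≤ ∑ e ∈ s, w e * Real.log (1 + t * r e) := by
      refine Finset.sum_le_sum (fun e he => ?_)
      have := Real.one_sub_inv_le_log_of_pos (h1 e he)
      have h4 : 1 - (1 + t * r e)⁻¹ = t * (r e / (1 + t * r e)) := by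
        have := (h1 e he).ne'
        field_simp
        ring
      rw [h4] at this
      have h5 := mul_le_mul_of_nonneg_left this (hw e he)
      calc t * (w e * (r e / (1 + t * r e))) = w e * (t * (r e / (1 + t * r e))) := by ring
        _ ≤ _ := h5
    rw [← Finset.mul_sum] at hb
    have : t * ∑ e ∈ s, w e * (r e / (1 + t * r e)) ≤ 0 := hb.trans hlog
    by_contra hcon
    push Not at hcon
    have := mul_pos h3 hcon
    linarith
  have hlim : Tendsto (fun t : ℝ => ∑ e ∈ s, w e * (r e / (1 + t * r e))) (𝓝[>] 0)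
      (𝓝 (∑ e ∈ s, w e * r e)) := by
    have hc : ContinuousAt (fun t : ℝ => ∑ e ∈ s, w e * (r e / (1 + t * r e))) 0 := by
      refine tendsto_finsetSum _ (fun e _ => ?_)
      refine ContinuousAt.mul (by fun_prop) (ContinuousAt.div (by fun_prop) (by fun_prop) (by norm_num))
    have := hc.tendsto
    simp only [zero_mul, add_zero, div_one] at this
    exact this.mono_left nhdsWithin_le_nhds
  exact le_of_tendsto hlim key

/-- expansion of the determinant along one slot -/
lemma det_update {n : ℕ} (b : Basis (Fin n) 𝕜 X) (w : Basis (Fin n) 𝕜 X) (k : Fin n) (y : X) :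
    b.det (Function.update w k y) = w.coord k y * b.det w := by
  have h : (b.det.toMultilinearMap.toLinearMap w k) = (b.det w) • (w.coord k) := by
    refine w.ext (fun j => ?_)
    by_cases hj : j = k
    · subst hj
      simp
    · have h1 : b.det (Function.update w k (w j)) = 0 := by
        refine b.det.map_eq_zero_of_eq _ (i := j) (j := k) ?_ hj
        simp [Function.update_of_ne hj]
      simp [h1, Basis.coord_apply, hj]
  have := congrArg (fun L : X →ₗ[𝕜] 𝕜 => L y) h
  simp at this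
  rw [this]
  simp [mul_comm]

/-- a set closed under real convex combinations (the scalars are coerced to `𝕜`) -/
def KConv (𝕜 : Type u) [RCLike 𝕜] {X : Type v} [NormedAddCommGroup X] [NormedSpace 𝕜 X]
    (K : Set X) : Prop :=
  ∀ x ∈ K, ∀ y ∈ K, ∀ t : ℝ, 0 ≤ t → t ≤ 1 → ((1 - t : ℝ) : 𝕜) • x + (t : 𝕜) • y ∈ K

lemma KConv.sum_mem {K : Set X} (h : KConv 𝕜 K) {ι : Type*} (s : Finset ι) (lam : ι → ℝ) (z : ι → X)
    (h0 : ∀ i ∈ s, 0 ≤ lam i) (h1 : ∑ i ∈ s, lam i = 1) (hz : ∀ i ∈ s, z i ∈ K) :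
    ∑ i ∈ s, (lam i : 𝕜) • z i ∈ K := by
  let _ : NormedSpace ℝ X := NormedSpace.restrictScalars ℝ 𝕜 X
  have hK : Convex ℝ K := by
    intro x hx y hy a b ha hb hab
    have h2 := h x hx y hy b hb (by linarith)
    have h3 : (1 - b : ℝ) = a := by linarith
    rw [h3] at h2
    exact h2
  exact hK.sum_mem h0 h1 hz

/-- points in general position in a spanning convex set -/
lemma exists_general {K : Set X} (h : KConv 𝕜 K) {n : ℕ} (hn : 0 < n) (b : Basis (Fin n) 𝕜 X)
    (hb : ∀ k, b k ∈ K) (N : ℕ) :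
    ∃ x : Fin N → X, (∀ i, x i ∈ K) ∧ ∀ e : Fin n ↪ Fin N, b.det (x ∘ e) ≠ 0 := by
  classical
  have : Nonempty (Fin n) := ⟨⟨0, hn⟩⟩
  set s : Fin N → ℝ := fun i => ∑ k : Fin n, ((i : ℝ) + 1) ^ (k : ℕ) with hs
  have hspos : ∀ i, 0 < s i := fun i => Finset.sum_pos (fun k _ => by positivity) Finset.univ_nonempty
  set v : Fin N → X := fun i => ∑ k : Fin n, (((i : ℕ) : 𝕜) + 1) ^ (k : ℕ) • b k with hv
  have hvs : ∀ i, (((s i)⁻¹ : ℝ) : 𝕜) • v i
      = ∑ k : Fin n, (((s i)⁻¹ * ((i : ℝ) + 1) ^ (k : ℕ) : ℝ) : 𝕜) • b k := by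
    intro i
    rw [hv, Finset.smul_sum]
    refine Finset.sum_congr rfl (fun k _ => ?_)
    rw [smul_smul]
    push_cast
    rfl
  refine ⟨fun i => (((s i)⁻¹ : ℝ) : 𝕜) • v i, fun i => ?_, fun e => ?_⟩
  · change (((s i)⁻¹ : ℝ) : 𝕜) • v i ∈ K
    rw [hvs]
    refine h.sum_mem _ _ _ (fun k _ => ?_) ?_ (fun k _ => hb k)
    · exact mul_nonneg (inv_nonneg.2 (hspos i).le) (by positivity)
    · rw [← Finset.mul_sum]
      exact inv_mul_cancel₀ (hspos i).ne'
  · have h1 : b.det ((fun i => (((s i)⁻¹ : ℝ) : 𝕜) • v i) ∘ e)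
        = (∏ j : Fin n, (((s (e j))⁻¹ : ℝ) : 𝕜)) • b.det (v ∘ e) :=
      b.det.toMultilinearMap.map_smul_univ (fun j => (((s (e j))⁻¹ : ℝ) : 𝕜)) (v ∘ e)
    rw [h1]
    refine smul_ne_zero ?_ ?_
    · rw [Finset.prod_ne_zero_iff]
      intro j _
      exact RCLike.ofReal_ne_zero.mpr (inv_pos.mpr (hspos _)).ne'
    · rw [Basis.det_apply]
      have h2 : b.toMatrix (v ∘ e)
          = (Matrix.vandermonde (fun j => (((e j : Fin N) : ℕ) : 𝕜) + 1)).transpose := by
        ext i j
        simp only [Basis.toMatrix_apply, Function.comp_apply, hv, Matrix.transpose_apply,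
          Matrix.vandermonde_apply, map_sum, map_smul, Basis.repr_self, Finsupp.coe_finsetSum,
          Finset.sum_apply, Finsupp.smul_apply, smul_eq_mul, Finsupp.single_apply]
        simp
      rw [h2, Matrix.det_transpose, Matrix.det_vandermonde_ne_zero_iff]
      intro j j' h
      have h' : (((e j : Fin N) : ℕ) : 𝕜) + 1 = (((e j' : Fin N) : ℕ) : 𝕜) + 1 := h
      have h3 : ((e j : Fin N) : ℕ) = ((e j' : Fin N) : ℕ) := Nat.cast_injective (add_right_cancel h')
      exact e.injective (Fin.ext h3)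

variable [FiniteDimensional 𝕜 X]

/-- a spanning set contains a basis -/
lemma exists_basis {K : Set X} (hspan : Submodule.span 𝕜 K = ⊤) :
    ∃ b : Basis (Fin (finrank 𝕜 X)) 𝕜 X, ∀ k, b k ∈ K := by
  obtain ⟨s, hs, hs1, hs2⟩ := exists_linearIndependent 𝕜 K
  rw [hspan] at hs1
  let b0 : Basis s 𝕜 X := Basis.mk hs2 (by rw [Subtype.range_coe]; exact hs1.ge)
  have hfin : Fintype s := FiniteDimensional.fintypeBasisIndex b0
  have hcard : Fintype.card s = finrank 𝕜 X := (finrank_eq_card_basis b0).symm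
  let e : s ≃ Fin (finrank 𝕜 X) := Fintype.equivFinOfCardEq hcard
  refine ⟨b0.reindex e, fun k => ?_⟩
  rw [Basis.reindex_apply, Basis.mk_apply]
  exact hs (e.symm k).2

/-- The main construction. -/
theorem exists_frame [Nontrivial X] {N : ℕ} (hN : finrank 𝕜 X ≤ N) (c : Fin N → ℝ)
    (hc0 : ∀ i, 0 < c i) (w : Equiv.Perm (Fin N) → ℝ) (hw0 : ∀ σ, 0 ≤ w σ) (hw1 : ∑ σ, w σ = 1)
    (hmarg : ∀ i, marg hN w i = c i) {K : Set X} (hK : IsCompact K) (hconv : KConv 𝕜 K)
    (hspan : Submodule.span 𝕜 K = ⊤) :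
    ∃ (x : Fin N → X) (f : Fin N → (X →ₗ[𝕜] 𝕜)),
      (∀ i, x i ∈ K ∧ f i (x i) = 1 ∧ ∀ y ∈ K, RCLike.re (f i y) ≤ 1) ∧
      (∀ y : X, ∑ i, (c i : 𝕜) • f i y • x i = y) ∧
      ∀ σ, 0 < w σ → LinearIndependent 𝕜 (fun k => x (σ (Fin.castLE hN k))) := by
  classical
  set n := finrank 𝕜 X with hn
  have hn0 : 0 < n := finrank_pos
  obtain ⟨b, hb⟩ := exists_basis hspan
  let T : Equiv.Perm (Fin N) → (Fin n ↪ Fin N) := fun σ =>
    (Fin.castLEEmb hN).trans σ.toEmbedding
  have hT : ∀ σ k, T σ k = σ (Fin.castLE hN k) := fun σ k => rfl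
  let F : (Fin N → X) → ℝ := fun x => ∏ σ, ‖b.det (x ∘ T σ)‖ ^ (w σ)
  have hFc : Continuous F := by
    refine continuous_finsetProd _ (fun σ _ => ?_)
    refine Continuous.rpow_const (Continuous.norm ?_) (fun _ => Or.inr (hw0 σ))
    simp only [Basis.det_apply]
    refine Continuous.matrix_det ?_
    refine continuous_pi (fun i => continuous_pi (fun j => ?_))
    simp only [Basis.toMatrix_apply, Function.comp_apply]
    have h1 : Continuous (fun z : X => b.repr z i) :=
      LinearMap.continuous_of_finiteDimensional (b.coord i)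
    exact h1.comp (continuous_apply _)
  let KK : Set (Fin N → X) := Set.pi Set.univ (fun _ => K)
  have hKK : IsCompact KK := isCompact_univ_pi (fun _ => hK)
  obtain ⟨x0, hx0, hx0'⟩ := exists_general hconv hn0 b hb N
  have hx0K : x0 ∈ KK := fun i _ => hx0 i
  obtain ⟨x, hxK, hmax⟩ := hKK.exists_isMaxOn ⟨x0, hx0K⟩ hFc.continuousOn
  have hF0 : 0 < F x0 := Finset.prod_pos (fun σ _ => Real.rpow_pos_of_pos (norm_pos_iff.mpr (hx0' _)) _)
  have hFx : 0 < F x := lt_of_lt_of_le hF0 (hmax hx0K)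
  have hxK' : ∀ i, x i ∈ K := fun i => hxK i (Set.mem_univ i)
  have hdet : ∀ σ, 0 < w σ → b.det (x ∘ T σ) ≠ 0 := by
    intro σ hσ h
    apply hFx.ne'
    exact Finset.prod_eq_zero (Finset.mem_univ σ) (by rw [h, norm_zero, Real.zero_rpow hσ.ne'])
  have hbas : ∀ σ, ∃ W : Basis (Fin n) 𝕜 X, 0 < w σ → (W : Fin n → X) = x ∘ T σ := by
    intro σ
    by_cases hσ : 0 < w σ
    · have h := (Basis.is_basis_iff_det b).mpr (isUnit_iff_ne_zero.mpr (hdet σ hσ))
      exact ⟨Basis.mk h.1 h.2.ge, fun _ => Basis.coe_mk _ _⟩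
    · exact ⟨b, fun h => absurd h hσ⟩
  choose W hW using hbas
  let ψ : Equiv.Perm (Fin N) → Fin N → (X →ₗ[𝕜] 𝕜) := fun σ i =>
    ∑ k : Fin n, if T σ k = i then (W σ).coord k else 0
  have hψ_in : ∀ σ (k : Fin n), ψ σ (T σ k) = (W σ).coord k := by
    intro σ k
    simp only [ψ]
    rw [Finset.sum_eq_single k]
    · simp
    · intro j _ hj
      rw [if_neg]
      exact fun h => hj ((T σ).injective h)
    · simp
  have hψ_out : ∀ σ (i : Fin N), i ∉ Set.range (T σ) → ψ σ i = 0 := by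
    intro σ i hi
    simp only [ψ]
    refine Finset.sum_eq_zero (fun k _ => if_neg (fun h => hi ⟨k, h⟩))
  have hWx : ∀ σ, 0 < w σ → ∀ k : Fin n, (W σ).coord k (x (T σ k)) = 1 := by
    intro σ hσ k
    have : x (T σ k) = W σ k := by rw [hW σ hσ]; rfl
    rw [this]
    simp
  have hψx : ∀ σ, 0 < w σ → ∀ i : Fin N,
      ψ σ i (x i) = ((∑ k : Fin n, if T σ k = i then 1 else 0 : ℝ) : 𝕜) := by
    intro σ hσ i
    by_cases hi : i ∈ Set.range (T σ)
    · obtain ⟨k, rfl⟩ := hi
      rw [hψ_in, hWx σ hσ, Finset.sum_eq_single k]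
      · simp
      · intro j _ hj
        rw [if_neg]
        exact fun h => hj ((T σ).injective h)
      · simp
    · rw [hψ_out σ i hi]
      have : (∑ k : Fin n, if T σ k = i then 1 else 0 : ℝ) = 0 :=
        Finset.sum_eq_zero (fun k _ => if_neg (fun h => hi ⟨k, h⟩))
      rw [this]
      simp
  have hratio : ∀ (i : Fin N) (y : X) (t : 𝕜) (σ : Equiv.Perm (Fin N)), 0 < w σ →
      b.det (Function.update x i (x i + t • (y - x i)) ∘ T σ)
        = (1 + t * (ψ σ i y - ψ σ i (x i))) * b.det (x ∘ T σ) := by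
    intro i y t σ hσ
    by_cases hi : i ∈ Set.range (T σ)
    · obtain ⟨k, rfl⟩ := hi
      rw [Function.update_comp_eq_of_injective x (T σ).injective, ← hW σ hσ, det_update b (W σ) k,
        hψ_in]
      simp only [map_add, map_smul, map_sub, hWx σ hσ, smul_eq_mul]
    · rw [hψ_out σ i hi, Function.update_comp_eq_of_notMem_range x _ hi]
      simp
  have hfirst : ∀ (i : Fin N) (y : X), y ∈ K →
      ∑ σ, w σ * RCLike.re (ψ σ i y - ψ σ i (x i)) ≤ 0 := by
    intro i y hy
    -- forget the permutations of weight zero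
    set P : Finset (Equiv.Perm (Fin N)) := Finset.univ.filter fun σ => 0 < w σ with hP
    have hsumP : ∑ σ, w σ * RCLike.re (ψ σ i y - ψ σ i (x i))
        = ∑ σ ∈ P, w σ * RCLike.re (ψ σ i y - ψ σ i (x i)) := by
      rw [hP, Finset.sum_filter]
      refine Finset.sum_congr rfl (fun σ _ => ?_)
      split_ifs with h
      · rfl
      · have : w σ = 0 := le_antisymm (not_lt.1 h) (hw0 σ)
        rw [this, zero_mul]
    have hFP : ∀ z, F z = ∏ σ ∈ P, ‖b.det (z ∘ T σ)‖ ^ (w σ) := by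
      intro z
      rw [hP, Finset.prod_filter]
      refine Finset.prod_congr rfl (fun σ _ => ?_)
      split_ifs with h
      · rfl
      · have : w σ = 0 := le_antisymm (not_lt.1 h) (hw0 σ)
        rw [this, Real.rpow_zero]
    have hPm : ∀ σ ∈ P, 0 < w σ := fun σ hσ => (Finset.mem_filter.1 hσ).2
    rw [hsumP]
    refine sum_nonpos_of_rpow _ _ _ (fun σ _ => hw0 σ) (fun t ht0 ht1 hpos => ?_)
    set x' : Fin N → X := Function.update x i (x i + (t : 𝕜) • (y - x i)) with hx'
    have hx'K : x' ∈ KK := by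
      intro j _
      rw [hx']
      by_cases hj : j = i
      · subst hj
        rw [Function.update_self]
        have : x j + (t : 𝕜) • (y - x j) = ((1 - t : ℝ) : 𝕜) • x j + (t : 𝕜) • y := by
          push_cast
          module
        rw [this]
        exact hconv _ (hxK' j) _ hy t ht0.le ht1
      · rw [Function.update_of_ne hj]
        exact hxK' j
    have h1 : F x' ≤ F x := hmax hx'K
    have h2 : F x' = (∏ σ ∈ P, ‖1 + (t : 𝕜) * (ψ σ i y - ψ σ i (x i))‖ ^ (w σ)) * F x := by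
      rw [hFP, hFP, ← Finset.prod_mul_distrib]
      refine Finset.prod_congr rfl (fun σ hσ => ?_)
      rw [hx', hratio i y _ σ (hPm σ hσ), norm_mul,
        Real.mul_rpow (norm_nonneg _) (norm_nonneg _)]
    have h3 : (∏ σ ∈ P, ‖1 + (t : 𝕜) * (ψ σ i y - ψ σ i (x i))‖ ^ (w σ)) ≤ 1 := by
      rw [h2] at h1
      by_contra hc
      push Not at hc
      nlinarith
    refine le_trans (Finset.prod_le_prod (fun σ hσ => (Real.rpow_pos_of_pos (hpos σ hσ) _).le)
      (fun σ hσ => ?_)) h3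
    refine Real.rpow_le_rpow (hpos σ hσ).le ?_ (hw0 σ)
    have h4 := RCLike.re_le_norm (1 + (t : 𝕜) * (ψ σ i y - ψ σ i (x i)))
    have h5 : RCLike.re (1 + (t : 𝕜) * (ψ σ i y - ψ σ i (x i)))
        = 1 + t * RCLike.re (ψ σ i y - ψ σ i (x i)) := by
      rw [map_add, RCLike.one_re, RCLike.re_ofReal_mul]
    rw [h5] at h4
    exact h4
  have hsumψ : ∀ i, ∑ σ, (w σ : 𝕜) * ψ σ i (x i) = (c i : 𝕜) := by
    intro i
    rw [← hmarg i]
    unfold marg
    push_cast
    refine Finset.sum_congr rfl (fun σ _ => ?_)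
    rcases (hw0 σ).lt_or_eq with h | h
    · rw [hψx σ h]
      push_cast
      rfl
    · rw [← h]
      simp
  let g : Fin N → (X →ₗ[𝕜] 𝕜) := fun i => ((c i : 𝕜))⁻¹ • ∑ σ, (w σ : 𝕜) • ψ σ i
  have hc𝕜 : ∀ i, (c i : 𝕜) ≠ 0 := fun i => RCLike.ofReal_ne_zero.mpr (hc0 i).ne'
  have hgx : ∀ i, g i (x i) = 1 := by
    intro i
    simp only [g, LinearMap.smul_apply, LinearMap.sum_apply, smul_eq_mul]
    rw [hsumψ]
    exact inv_mul_cancel₀ (hc𝕜 i)
  have hre : ∀ i y, y ∈ K → RCLike.re (g i y) ≤ 1 := by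
    intro i y hy
    have h1 := hfirst i y hy
    have h6 : ∑ σ, w σ * RCLike.re (ψ σ i (x i)) = c i := by
      have := congrArg RCLike.re (hsumψ i)
      rw [map_sum, RCLike.ofReal_re] at this
      rw [← this]
      exact Finset.sum_congr rfl (fun σ _ => (RCLike.re_ofReal_mul _ _).symm)
    simp only [map_sub, mul_sub, Finset.sum_sub_distrib] at h1
    rw [h6] at h1
    have h2 : RCLike.re (g i y) = (c i)⁻¹ * ∑ σ, w σ * RCLike.re (ψ σ i y) := by
      have h7 : g i y = (((c i)⁻¹ : ℝ) : 𝕜) * ∑ σ, (w σ : 𝕜) * ψ σ i y := by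
        simp only [g, LinearMap.smul_apply, LinearMap.sum_apply, smul_eq_mul]
        push_cast
        rfl
      rw [h7, RCLike.re_ofReal_mul, map_sum]
      congr 1
      exact Finset.sum_congr rfl (fun σ _ => RCLike.re_ofReal_mul _ _)
    rw [h2, inv_mul_le_iff₀ (hc0 i)]
    linarith
  refine ⟨x, g, fun i => ⟨hxK' i, hgx i, fun y hy => hre i y hy⟩, fun y => ?_, fun σ hσ => ?_⟩
  · have h1 : ∀ i, (c i : 𝕜) • g i y • x i = ∑ σ, (w σ : 𝕜) • ψ σ i y • x i := by
      intro i
      simp only [g, LinearMap.smul_apply, LinearMap.sum_apply, smul_eq_mul]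
      rw [smul_smul, ← mul_assoc, mul_inv_cancel₀ (hc𝕜 i), one_mul, Finset.sum_smul]
      refine Finset.sum_congr rfl (fun σ _ => ?_)
      rw [mul_smul]
    rw [Finset.sum_congr rfl (fun i _ => h1 i), Finset.sum_comm]
    have h2 : ∀ σ, ∑ i, (w σ : 𝕜) • ψ σ i y • x i = (w σ : 𝕜) • y := by
      intro σ
      rcases (hw0 σ).lt_or_eq with h | h
      · rw [← Finset.smul_sum]
        congr 1
        simp only [ψ, LinearMap.sum_apply, Finset.sum_smul]
        rw [Finset.sum_comm]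
        have h3 : ∀ k : Fin n, ∑ i : Fin N,
            (if T σ k = i then (W σ).coord k else 0 : X →ₗ[𝕜] 𝕜) y • x i
            = (W σ).repr y k • W σ k := by
          intro k
          rw [Finset.sum_eq_single (T σ k)]
          · rw [if_pos rfl, Basis.coord_apply, hW σ h]
            rfl
          · intro j _ hj
            rw [if_neg (Ne.symm hj)]
            simp
          · simp
        rw [Finset.sum_congr rfl (fun k _ => h3 k)]
        exact (W σ).sum_repr y
      · rw [← h]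
        simp
    rw [Finset.sum_congr rfl (fun σ _ => h2 σ), ← Finset.sum_smul, ← RCLike.ofReal_sum, hw1,
      RCLike.ofReal_one, one_smul]
  · have := (W σ).linearIndependent
    rw [hW σ hσ] at this
    exact this

end Pool.Agent.Y387.Frame
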