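import Mathlib

/-!
# Weights on permutations with prescribed marginals
-/

set_option autoImplicit false

namespace Pool.Agent.Y387.Frame

open Finset

/-- the first `n` of `N` indices -/
noncomputable def marg {n N : ℕ} (h : n ≤ N) (w : Equiv.Perm (Fin N) → ℝ) (i : Fin N) : ℝ :=
  ∑ σ, w σ * ∑ k : Fin n, if σ (Fin.castLE h k) = i then (1 : ℝ) else 0

lemma marg_of_matrix {n N : ℕ} (h : n ≤ N) (w : Equiv.Perm (Fin N) → ℝ)
    (M : Matrix (Fin N) (Fin N) ℝ) (hM : ∑ σ, w σ • σ.permMatrix ℝ = M) (i : Fin N) :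
    marg h w i = ∑ k : Fin n, M (Fin.castLE h k) i := by
  unfold marg
  have h1 : ∀ σ : Equiv.Perm (Fin N), w σ * ∑ k : Fin n, (if σ (Fin.castLE h k) = i then (1 : ℝ) else 0)
      = ∑ k : Fin n, w σ * (if σ (Fin.castLE h k) = i then (1 : ℝ) else 0) := fun σ => mul_sum _ _ _
  rw [sum_congr rfl (fun σ _ => h1 σ), sum_comm]
  refine sum_congr rfl (fun k _ => ?_)
  rw [← hM, Matrix.sum_apply]
  refine sum_congr rfl (fun σ _ => ?_)
  rw [Matrix.smul_apply, smul_eq_mul, Equiv.Perm.permMatrix, PEquiv.toMatrix_apply]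
  simp only [Equiv.toPEquiv_apply, Option.mem_def, Option.some.injEq]

/-- the doubly stochastic matrix with the given marginals of the first `n` rows -/
noncomputable def mat (n N : ℕ) (c : Fin N → ℝ) : Matrix (Fin N) (Fin N) ℝ := fun k i =>
  if (k : ℕ) < n then c i / n else (1 - c i) / (N - n)

lemma sum_lt_card {n N : ℕ} (h : n ≤ N) (a b : ℝ) :
    ∑ k : Fin N, (if (k : ℕ) < n then a else b) = n * a + (N - n) * b := by
  rw [sum_ite, sum_const, sum_const, nsmul_eq_mul, nsmul_eq_mul]
  have h1 : (univ.filter fun k : Fin N => (k : ℕ) < n).card = n := by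
    have h2 : (univ.filter fun k : Fin N => (k : ℕ) < n) = univ.map (Fin.castLEEmb h) := by
      ext k
      simp only [mem_filter, mem_univ, true_and, mem_map, Fin.castLEEmb_apply]
      constructor
      · intro hk
        exact ⟨⟨k, hk⟩, by ext; simp⟩
      · rintro ⟨j, rfl⟩
        simp
    rw [h2, card_map, card_univ, Fintype.card_fin]
  have h3 : (univ.filter fun k : Fin N => ¬ (k : ℕ) < n).card = N - n := by
    have h4 := card_filter_add_card_filter_not (s := (univ : Finset (Fin N)))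
      (fun k : Fin N => (k : ℕ) < n)
    rw [h1, card_univ, Fintype.card_fin] at h4
    omega
  rw [h1, h3, Nat.cast_sub h]

lemma mat_ds {n N : ℕ} (hn : 0 < n) (h : n ≤ N) (c : Fin N → ℝ) (h0 : ∀ i, 0 ≤ c i)
    (h1 : ∀ i, c i ≤ 1) (hs : ∑ i, c i = n) : mat n N c ∈ doublyStochastic ℝ (Fin N) := by
  have hn' : (0 : ℝ) < n := by exact_mod_cast hn
  have hN : (n : ℝ) ≤ N := by exact_mod_cast h
  rw [mem_doublyStochastic_iff_sum]
  refine ⟨fun k i => ?_, fun k => ?_, fun i => ?_⟩
  · unfold mat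
    split_ifs
    · exact div_nonneg (h0 i) hn'.le
    · exact div_nonneg (by linarith [h1 i]) (by linarith)
  · unfold mat
    split_ifs with hk
    · rw [← sum_div, hs, div_self hn'.ne']
    · rw [← sum_div, sum_sub_distrib, hs]
      simp only [sum_const, card_univ, Fintype.card_fin, nsmul_eq_mul, mul_one]
      have : (n : ℝ) < N := by
        have h2 := k.2
        have : n < N := by omega
        exact_mod_cast this
      exact div_self (by linarith)
  · unfold mat
    rw [sum_lt_card h]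
    rcases h.lt_or_eq with h2 | h2
    · have : (n : ℝ) < N := by exact_mod_cast h2
      have h3 : (N : ℝ) - n ≠ 0 := by linarith
      field_simp
      ring
    · subst h2
      have h3 : c i = 1 := by
        by_contra hne
        have hlt : c i < 1 := lt_of_le_of_ne (h1 i) hne
        have : ∑ i, c i < ∑ _i : Fin n, (1 : ℝ) :=
          sum_lt_sum (fun j _ => h1 j) ⟨i, mem_univ _, hlt⟩
        rw [hs] at this
        simp at this
      rw [h3]
      field_simp
      ring

lemma marg_mat {n N : ℕ} (hn : 0 < n) (h : n ≤ N) (c : Fin N → ℝ) (i : Fin N) :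
    ∑ k : Fin n, mat n N c (Fin.castLE h k) i = c i := by
  unfold mat
  simp only [Fin.val_castLE, Fin.is_lt, if_true, sum_const, card_univ, Fintype.card_fin,
    nsmul_eq_mul]
  have hn' : (n : ℝ) ≠ 0 := by exact_mod_cast hn.ne'
  field_simp

/-- weights on the permutations with prescribed marginals -/
theorem exists_weights {n N : ℕ} (hn : 0 < n) (h : n ≤ N) (c : Fin N → ℝ) (h0 : ∀ i, 0 < c i)
    (h1 : ∀ i, c i ≤ 1) (hs : ∑ i, c i = n) :
    ∃ w : Equiv.Perm (Fin N) → ℝ, (∀ σ, 0 ≤ w σ) ∧ ∑ σ, w σ = 1 ∧ (∀ i, marg h w i = c i) ∧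
      ((∀ i, c i < 1) → ∀ σ, 0 < w σ) := by
  classical
  have hds := mat_ds hn h c (fun i => (h0 i).le) h1 hs
  by_cases hlt : ∀ i, c i < 1
  · have hn' : (0 : ℝ) < n := by exact_mod_cast hn
    have hN0 : 0 < N := by omega
    have hnN : (n : ℝ) < N := by
      have h2 : ∑ i, c i < ∑ _i : Fin N, (1 : ℝ) := by
        refine sum_lt_sum (fun i _ => h1 i) ⟨⟨0, hN0⟩, mem_univ _, hlt _⟩
      rw [hs] at h2
      simpa using h2
    have hpos : ∀ k i, 0 < mat n N c k i := by
      intro k i
      unfold mat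
      split_ifs
      · exact div_pos (h0 i) hn'
      · exact div_pos (by linarith [hlt i]) (by linarith)
    -- a uniform lower bound
    obtain ⟨ε, hε0, hε1, hε⟩ : ∃ ε : ℝ, 0 < ε ∧ ε < 1 ∧ ∀ k i, ε ≤ mat n N c k i := by
      have hne : (univ : Finset (Fin N × Fin N)).Nonempty := ⟨(⟨0, hN0⟩, ⟨0, hN0⟩), mem_univ _⟩
      obtain ⟨p, -, hp⟩ := exists_min_image univ (fun p : Fin N × Fin N => mat n N c p.1 p.2) hne
      refine ⟨min (mat n N c p.1 p.2) (1 / 2), lt_min (hpos _ _) (by norm_num),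
        lt_of_le_of_lt (min_le_right _ _) (by norm_num), fun k i => ?_⟩
      exact (min_le_left _ _).trans (hp (k, i) (mem_univ _))
    have hrep : ∀ τ : Equiv.Perm (Fin N), ∃ w : Equiv.Perm (Fin N) → ℝ, (∀ σ, 0 ≤ w σ) ∧
        ∑ σ, w σ = 1 ∧ (∀ i, marg h w i = c i) ∧ 0 < w τ := by
      intro τ
      set M' : Matrix (Fin N) (Fin N) ℝ := (1 - ε)⁻¹ • (mat n N c - ε • τ.permMatrix ℝ) with hM'
      have hτ := permMatrix_mem_doublyStochastic (R := ℝ) (σ := τ)
      have hM'ds : M' ∈ doublyStochastic ℝ (Fin N) := by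
        rw [mem_doublyStochastic_iff_sum] at hds hτ ⊢
        have h1ε : (0 : ℝ) < 1 - ε := by linarith
        refine ⟨fun k i => ?_, fun k => ?_, fun i => ?_⟩
        · rw [hM', Matrix.smul_apply, Matrix.sub_apply, Matrix.smul_apply, smul_eq_mul, smul_eq_mul]
          refine mul_nonneg (inv_nonneg.2 h1ε.le) ?_
          have h3 : τ.permMatrix ℝ k i ≤ 1 := by
            rw [Equiv.Perm.permMatrix, PEquiv.toMatrix_apply]
            split_ifs <;> norm_num
          have h4 := hε k i
          nlinarith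
        · simp only [hM', Matrix.smul_apply, Matrix.sub_apply, smul_eq_mul]
          rw [← mul_sum, sum_sub_distrib, ← mul_sum, hds.2.1 k, hτ.2.1 k, mul_one]
          exact inv_mul_cancel₀ h1ε.ne'
        · simp only [hM', Matrix.smul_apply, Matrix.sub_apply, smul_eq_mul]
          rw [← mul_sum, sum_sub_distrib, ← mul_sum, hds.2.2 i, hτ.2.2 i, mul_one]
          exact inv_mul_cancel₀ h1ε.ne'
      obtain ⟨w, hw0, hw1, hw2⟩ := exists_eq_sum_perm_of_mem_doublyStochastic hM'ds
      have h1ε : (0 : ℝ) < 1 - ε := by linarith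
      refine ⟨fun σ => (1 - ε) * w σ + if σ = τ then ε else 0, fun σ => ?_, ?_, fun i => ?_, ?_⟩
      · have := mul_nonneg h1ε.le (hw0 σ)
        change 0 ≤ (1 - ε) * w σ + if σ = τ then ε else 0
        split_ifs <;> linarith
      · rw [sum_add_distrib, ← mul_sum, hw1]
        simp
      · rw [marg_of_matrix h _ (mat n N c) ?_ i, marg_mat hn]
        simp only [add_smul, sum_add_distrib, mul_smul]
        rw [← smul_sum, hw2, hM', smul_smul, mul_inv_cancel₀ h1ε.ne', one_smul]
        simp only [ite_smul, zero_smul, sum_ite_eq', mem_univ, if_true]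
        abel
      · simp only [if_true]
        have := mul_nonneg h1ε.le (hw0 τ)
        linarith
    choose W hW0 hW1 hW2 hW3 using hrep
    have hcard : (0 : ℝ) < Fintype.card (Equiv.Perm (Fin N)) := by
      exact_mod_cast Fintype.card_pos
    refine ⟨fun σ => (Fintype.card (Equiv.Perm (Fin N)) : ℝ)⁻¹ * ∑ τ, W τ σ, fun σ => ?_, ?_,
      fun i => ?_, fun _ σ => ?_⟩
    · exact mul_nonneg (inv_nonneg.2 hcard.le) (sum_nonneg (fun τ _ => hW0 τ σ))
    · rw [← mul_sum, sum_comm, sum_congr rfl (fun τ _ => hW1 τ)]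
      simp only [sum_const, card_univ, nsmul_eq_mul, mul_one]
      exact inv_mul_cancel₀ hcard.ne'
    · have h5 : marg h (fun σ => (Fintype.card (Equiv.Perm (Fin N)) : ℝ)⁻¹ * ∑ τ, W τ σ) i
          = (Fintype.card (Equiv.Perm (Fin N)) : ℝ)⁻¹ * ∑ τ, marg h (W τ) i := by
        unfold marg
        rw [sum_comm, mul_sum]
        refine sum_congr rfl (fun σ _ => ?_)
        rw [mul_assoc, sum_mul]
      rw [h5, sum_congr rfl (fun τ _ => hW2 τ i)]
      simp only [sum_const, card_univ, nsmul_eq_mul]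
      rw [← mul_assoc, inv_mul_cancel₀ hcard.ne', one_mul]
    · refine mul_pos (inv_pos.2 hcard) (lt_of_lt_of_le (hW3 σ) ?_)
      exact single_le_sum (f := fun τ => W τ σ) (fun τ _ => hW0 τ σ) (mem_univ σ)
  · obtain ⟨w, hw0, hw1, hw2⟩ := exists_eq_sum_perm_of_mem_doublyStochastic hds
    refine ⟨w, hw0, hw1, fun i => ?_, fun h' => absurd h' hlt⟩
    rw [marg_of_matrix h w _ hw2, marg_mat hn]

end Pool.Agent.Y387.Frame
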